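import Mathlib

/-!
# A lower bound for every bound `B(F)` for the integer points on the curves of genus at least two

For every degree `d ≥ 4` and every height `t ≥ 1` the curve
`y ^ 2 - t x ^ (d - 1) y - x ^ d - t x = 0` has genus `d - 2` and passes through the integer point
`(t ^ 3, t ^ (3 d - 2) + t ^ 2)`.
-/

set_option autoImplicit false

open Polynomial

namespace Pool.Agent.Results.MP_821da1_nt.LowerBoundForB

/-- the polynomial `y ^ 2 - P(x) y - Q(x)` in the variables `x = X 0`, `y = X 1` -/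
noncomputable def quad (P Q : ℤ[X]) : MvPolynomial (Fin 2) ℤ :=
  MvPolynomial.X 1 ^ 2 - aeval (MvPolynomial.X 0 : MvPolynomial (Fin 2) ℤ) P * MvPolynomial.X 1
    - aeval (MvPolynomial.X 0 : MvPolynomial (Fin 2) ℤ) Q

/-- `F` is irreducible over `ℂ`, and it has the form `y ^ 2 - P(x) y - Q(x)`, where the
discriminant `P ^ 2 + 4 Q` has degree `2 g + 1` or `2 g + 2` and is squarefree over `ℂ`. By
`z = 2 y - P(x)` the curve `F = 0` is birational to `z ^ 2 = P(x) ^ 2 + 4 Q(x)`, which has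
genus `g`. -/
def HasGenus (F : MvPolynomial (Fin 2) ℤ) (g : ℕ) : Prop :=
  Irreducible (MvPolynomial.map (Int.castRingHom ℂ) F) ∧
    ∃ P Q : ℤ[X], F = quad P Q ∧ Squarefree ((P ^ 2 + 4 * Q).map (Int.castRingHom ℂ)) ∧
      ((P ^ 2 + 4 * Q).natDegree = 2 * g + 1 ∨ (P ^ 2 + 4 * Q).natDegree = 2 * g + 2)

/-- a polynomial `y ^ 2 - P(x) y - Q(x)` with squarefree nonconstant discriminant is
irreducible -/
lemma irr (P Q : ℤ[X]) (hsq : Squarefree ((P ^ 2 + 4 * Q).map (Int.castRingHom ℂ)))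
    (hdeg : 0 < ((P ^ 2 + 4 * Q).map (Int.castRingHom ℂ)).natDegree) :
    Irreducible (MvPolynomial.map (Int.castRingHom ℂ) (quad P Q)) := by
  let φ : MvPolynomial (Fin 2) ℂ ≃ₐ[ℂ] Polynomial (MvPolynomial (Fin 1) ℂ) :=
    (MvPolynomial.renameEquiv ℂ (Equiv.swap 0 1)).trans (MvPolynomial.finSuccEquiv ℂ 1)
  have hX0 : φ (MvPolynomial.X 0) = C (MvPolynomial.X 0) := by
    simp only [φ, AlgEquiv.trans_apply, MvPolynomial.renameEquiv_apply, MvPolynomial.rename_X,
      Equiv.swap_apply_left]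
    exact MvPolynomial.finSuccEquiv_X_succ (R := ℂ) (n := 1) (j := 0)
  have hX1 : φ (MvPolynomial.X 1) = X := by
    simp only [φ, AlgEquiv.trans_apply, MvPolynomial.renameEquiv_apply, MvPolynomial.rename_X,
      Equiv.swap_apply_right]
    exact MvPolynomial.finSuccEquiv_X_zero
  have hae : ∀ p : ℤ[X], φ (MvPolynomial.map (Int.castRingHom ℂ)
      (aeval (MvPolynomial.X 0 : MvPolynomial (Fin 2) ℤ) p)) =
      C (aeval (MvPolynomial.X 0 : MvPolynomial (Fin 1) ℂ) p) := by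
    intro p
    have h : ((φ : MvPolynomial (Fin 2) ℂ →+* Polynomial (MvPolynomial (Fin 1) ℂ)).comp
        (MvPolynomial.map (Int.castRingHom ℂ))).comp
        (aeval (MvPolynomial.X 0 : MvPolynomial (Fin 2) ℤ) : ℤ[X] →ₐ[ℤ] _).toRingHom =
        (C : MvPolynomial (Fin 1) ℂ →+* _).comp
          (aeval (MvPolynomial.X 0 : MvPolynomial (Fin 1) ℂ) : ℤ[X] →ₐ[ℤ] _).toRingHom := by
      apply Polynomial.ringHom_ext'
      · exact RingHom.ext_int _ _
      · simp [hX0]
    exact RingHom.congr_fun h p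
  rw [← MulEquiv.irreducible_iff φ]
  set p : MvPolynomial (Fin 1) ℂ := aeval (MvPolynomial.X 0 : MvPolynomial (Fin 1) ℂ) P with hp
  set q : MvPolynomial (Fin 1) ℂ := aeval (MvPolynomial.X 0 : MvPolynomial (Fin 1) ℂ) Q with hq
  have hφ : φ (MvPolynomial.map (Int.castRingHom ℂ) (quad P Q)) = X ^ 2 + C (-p) * X + C (-q) := by
    unfold quad
    rw [map_sub, map_sub, map_sub, map_sub, map_mul, map_mul, map_pow, map_pow, hae, hae,
      MvPolynomial.map_X, hX1, ← hp, ← hq, C_neg, C_neg]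
    ring
  rw [hφ]
  have hmon : (X ^ 2 + C (-p) * X + C (-q)).Monic := by
    have := monic_X_pow_add (n := 2) (p := C (-p) * X + C (-q)) (by
      refine lt_of_le_of_lt degree_linear_le ?_
      norm_num)
    rwa [← add_assoc] at this
  have hnat : (X ^ 2 + C (-p) * X + C (-q)).natDegree = 2 := by
    have := natDegree_quadratic (a := (1 : MvPolynomial (Fin 1) ℂ)) (b := -p) (c := -q) one_ne_zero
    rwa [C_1, one_mul] at this
  rw [hmon.irreducible_iff_roots_eq_zero_of_degree_le_three (by rw [hnat]) (by rw [hnat]; norm_num)]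
  rw [Multiset.eq_zero_iff_forall_notMem]
  intro r hr
  have hr' := (mem_roots'.1 hr).2
  rw [IsRoot.def, eval_add, eval_add, eval_mul, eval_pow, eval_X, eval_C, eval_C] at hr'
  let ψ : MvPolynomial (Fin 1) ℂ →ₐ[ℂ] ℂ[X] := MvPolynomial.aeval (fun _ => X)
  have hψ : ∀ s : ℤ[X], ψ (aeval (MvPolynomial.X 0 : MvPolynomial (Fin 1) ℂ) s) =
      s.map (Int.castRingHom ℂ) := by
    intro s
    have h : (ψ : MvPolynomial (Fin 1) ℂ →+* ℂ[X]).comp
        (aeval (MvPolynomial.X 0 : MvPolynomial (Fin 1) ℂ) : ℤ[X] →ₐ[ℤ] _).toRingHom =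
        Polynomial.mapRingHom (Int.castRingHom ℂ) := by
      apply Polynomial.ringHom_ext'
      · exact RingHom.ext_int _ _
      · simp [ψ]
    exact RingHom.congr_fun h s
  have h1 : (ψ r) ^ 2 + -(P.map (Int.castRingHom ℂ)) * ψ r + -(Q.map (Int.castRingHom ℂ)) = 0 := by
    have := congrArg ψ hr'
    rwa [map_add, map_add, map_mul, map_pow, map_neg, map_neg, hψ, hψ, map_zero] at this
  have h2 : (P ^ 2 + 4 * Q).map (Int.castRingHom ℂ) =
      (2 * ψ r - P.map (Int.castRingHom ℂ)) * (2 * ψ r - P.map (Int.castRingHom ℂ)) := by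
    rw [Polynomial.map_add, Polynomial.map_pow, Polynomial.map_mul, Polynomial.map_ofNat]
    linear_combination (-4 : ℂ[X]) * h1
  have h3 : IsUnit (2 * ψ r - P.map (Int.castRingHom ℂ)) := hsq _ (by rw [← h2])
  have h4 : IsUnit ((P ^ 2 + 4 * Q).map (Int.castRingHom ℂ)) := by
    rw [h2]
    exact h3.mul h3
  have h5 := natDegree_eq_zero_of_isUnit h4
  omega

/-- the discriminant -/
noncomputable def disc (g t : ℕ) : ℤ[X] :=
  C ((t : ℤ) ^ 2) * X ^ (2 * g + 2) + C 4 * X ^ (g + 2) + C (4 * (t : ℤ)) * X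

lemma natDegree_disc (g t : ℕ) (hg : 1 ≤ g) (ht : 1 ≤ t) : (disc g t).natDegree = 2 * g + 2 := by
  unfold disc
  have ht' : (t : ℤ) ^ 2 ≠ 0 := by positivity
  have h1 : (C ((t : ℤ) ^ 2) * X ^ (2 * g + 2) : ℤ[X]).natDegree = 2 * g + 2 :=
    natDegree_C_mul_X_pow _ _ ht'
  rw [add_assoc, natDegree_add_eq_left_of_natDegree_lt, h1]
  rw [h1]
  refine lt_of_le_of_lt (natDegree_add_le _ _) (max_lt ?_ ?_)
  · exact lt_of_le_of_lt (natDegree_C_mul_X_pow_le _ _) (by omega)
  · exact lt_of_le_of_lt (natDegree_C_mul_le _ _) (by rw [natDegree_X]; omega)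

lemma no_double_root (g t : ℕ) (hg : 1 ≤ g) (ht : 1 ≤ t) (α : ℂ)
    (h0 : (t : ℂ) ^ 2 * α ^ (2 * g + 2) + 4 * α ^ (g + 2) + 4 * t * α = 0)
    (h1 : (t : ℂ) ^ 2 * ((2 * g + 2) * α ^ (2 * g + 1)) + 4 * ((g + 2) * α ^ (g + 1)) + 4 * t = 0) :
    False := by
  have htc : (t : ℂ) ≠ 0 := by
    have : t ≠ 0 := by omega
    exact_mod_cast this
  have hα : α ≠ 0 := by
    rintro rfl
    rw [zero_pow (by omega), zero_pow (by omega)] at h1
    simp only [mul_zero, zero_add, mul_eq_zero] at h1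
    rcases h1 with h | h
    · norm_num at h
    · exact htc h
  have hg1 : (2 * (g : ℂ) + 1) ≠ 0 := by
    have : (2 * g + 1 : ℕ) ≠ 0 := by omega
    exact_mod_cast this
  have hgc : (g : ℂ) ≠ 0 := by
    have : g ≠ 0 := by omega
    exact_mod_cast this
  -- first consequence
  have e1 : (2 * (g : ℂ) + 1) * (t : ℂ) ^ 2 * α ^ g = -(4 * (g + 1)) := by
    have h : α ^ (g + 2) * ((2 * (g : ℂ) + 1) * (t : ℂ) ^ 2 * α ^ g + 4 * (g + 1)) = 0 := by
      linear_combination α * h1 - h0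
    rcases mul_eq_zero.1 h with h | h
    · exact absurd h (pow_ne_zero _ hα)
    · linear_combination h
  have e2 : (g : ℂ) * α ^ (g + 1) = -(t * (2 * g + 1)) := by
    have h : α * (4 * ((g : ℂ) * α ^ (g + 1) + t * (2 * g + 1))) = 0 := by
      linear_combination (2 * (g : ℂ) + 2) * h0 - α * h1
    rcases mul_eq_zero.1 h with h | h
    · exact absurd h hα
    · linear_combination h / 4
  have e3 : 4 * ((g : ℂ) + 1) * g * α = t ^ 3 * (2 * g + 1) ^ 2 := by
    linear_combination ((g : ℂ) * α) * e1 - (2 * (g : ℂ) + 1) * (t : ℂ) ^ 2 * e2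
  -- `α` is a positive real number
  obtain ⟨r, hr, hrα⟩ : ∃ r : ℝ, 0 < r ∧ (r : ℂ) = α := by
    refine ⟨(t : ℝ) ^ 3 * (2 * g + 1) ^ 2 / (4 * ((g : ℝ) + 1) * g), by positivity, ?_⟩
    have hg2 : ((g : ℂ) + 1) ≠ 0 := by exact_mod_cast Nat.succ_ne_zero g
    push_cast
    have h4 : (4 : ℂ) ≠ 0 := by norm_num
    rw [div_eq_iff (mul_ne_zero (mul_ne_zero h4 hg2) hgc), ← e3]
    ring
  rw [← hrα] at e1
  have e4 : (2 * (g : ℝ) + 1) * (t : ℝ) ^ 2 * r ^ g = -(4 * (g + 1)) := by exact_mod_cast e1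
  have e5 : 0 < (2 * (g : ℝ) + 1) * (t : ℝ) ^ 2 * r ^ g := by positivity
  have e6 : (0 : ℝ) < 4 * (g + 1) := by positivity
  linarith

lemma squarefree_disc (g t : ℕ) (hg : 1 ≤ g) (ht : 1 ≤ t) :
    Squarefree ((disc g t).map (Int.castRingHom ℂ)) := by
  have hmap : (disc g t).map (Int.castRingHom ℂ) =
      C ((t : ℂ) ^ 2) * X ^ (2 * g + 2) + C 4 * X ^ (g + 2) + C (4 * (t : ℂ)) * X := by
    unfold disc
    rw [Polynomial.map_add, Polynomial.map_add, Polynomial.map_mul, Polynomial.map_mul,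
      Polynomial.map_mul, Polynomial.map_pow, Polynomial.map_pow, map_X, map_C, map_C, map_C]
    simp
  intro p hp
  by_contra hu
  have hne : (disc g t).map (Int.castRingHom ℂ) ≠ 0 := by
    rw [Polynomial.map_ne_zero_iff (RingHom.injective_int _)]
    intro h
    have := natDegree_disc g t hg ht
    rw [h, natDegree_zero] at this
    omega
  have hp0 : p ≠ 0 := by
    rintro rfl
    rw [zero_mul, zero_dvd_iff] at hp
    exact hne hp
  have hdp : p.degree ≠ 0 := by
    intro h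
    exact hu (isUnit_iff_degree_eq_zero.2 h)
  obtain ⟨α, hα⟩ := IsAlgClosed.exists_root p hdp
  obtain ⟨q, hq⟩ := hp
  have h0 : ((disc g t).map (Int.castRingHom ℂ)).eval α = 0 := by
    rw [hq, eval_mul, eval_mul, hα.eq_zero, zero_mul, zero_mul]
  have h1 : (derivative ((disc g t).map (Int.castRingHom ℂ))).eval α = 0 := by
    rw [hq, derivative_mul, derivative_mul, eval_add, eval_mul, eval_mul, eval_add, eval_mul,
      eval_mul, eval_mul, hα.eq_zero]
    ring
  rw [hmap] at h0 h1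
  refine no_double_root g t hg ht α ?_ ?_
  · simpa using h0
  · simp only [derivative_add, derivative_mul, derivative_C, derivative_X_pow, derivative_X,
      eval_add, eval_mul, eval_C, eval_pow, eval_X, zero_mul, zero_add, mul_one] at h1
    have e1 : 2 * g + 2 - 1 = 2 * g + 1 := rfl
    have e2 : g + 2 - 1 = g + 1 := rfl
    rw [e1, e2] at h1
    push_cast at h1
    exact h1

/-- a monomial -/
noncomputable abbrev mon (i j : ℕ) (c : ℤ) : MvPolynomial (Fin 2) ℤ :=
  MvPolynomial.monomial (Finsupp.single 0 i + Finsupp.single 1 j) c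

lemma coeff_mon (i j : ℕ) (c : ℤ) (m : Fin 2 →₀ ℕ) :
    (mon i j c).coeff m = if i = m 0 ∧ j = m 1 then c else 0 := by
  unfold mon
  rw [MvPolynomial.coeff_monomial]
  congr 1
  rw [Finsupp.ext_iff, Fin.forall_fin_two]
  simp

lemma mon_eq (i j : ℕ) (c : ℤ) : mon i j c =
    MvPolynomial.C c * MvPolynomial.X 0 ^ i * MvPolynomial.X 1 ^ j := by
  unfold mon
  rw [MvPolynomial.C_mul_X_pow_eq_monomial, MvPolynomial.X_pow_eq_monomial,
    MvPolynomial.monomial_mul, mul_one]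

/-- the linear coefficient of the family: `P = t x ^ (g + 1)` -/
noncomputable def P₁ (g t : ℕ) : ℤ[X] := C (t : ℤ) * X ^ (g + 1)

/-- the constant coefficient of the family: `Q = x ^ (g + 2) + t x` -/
noncomputable def Q₁ (g t : ℕ) : ℤ[X] := X ^ (g + 2) + C (t : ℤ) * X

lemma disc₁ (g t : ℕ) : P₁ g t ^ 2 + 4 * Q₁ g t = disc g t := by
  unfold P₁ Q₁ disc
  simp only [C_mul, C_pow, map_ofNat]
  ring

lemma hasGenus (g t : ℕ) (hg : 1 ≤ g) (ht : 1 ≤ t) : HasGenus (quad (P₁ g t) (Q₁ g t)) g := by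
  have hsq := squarefree_disc g t hg ht
  have hnd := natDegree_disc g t hg ht
  have h := disc₁ g t
  refine ⟨irr _ _ ?_ ?_, _, _, rfl, ?_, ?_⟩
  · rwa [h]
  · rw [h, natDegree_map_eq_of_injective (RingHom.injective_int _), hnd]
    omega
  · rwa [h]
  · rw [h, hnd]
    exact Or.inr rfl

lemma quad₁ (g t : ℕ) : quad (P₁ g t) (Q₁ g t) =
    mon 0 2 1 + mon (g + 1) 1 (-t) + mon (g + 2) 0 (-1) + mon 1 0 (-t) := by
  simp only [mon_eq]
  unfold quad P₁ Q₁
  simp only [map_add, map_mul, map_pow, aeval_X, map_neg, map_one, map_natCast]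
  ring

/-- the total degree, from the coefficients -/
lemma totalDegree_eq {F : MvPolynomial (Fin 2) ℤ} {d i j : ℕ} (hij : i + j = d)
    (h1 : F.coeff (Finsupp.single 0 i + Finsupp.single 1 j) ≠ 0)
    (h2 : ∀ m : Fin 2 →₀ ℕ, d < m 0 + m 1 → F.coeff m = 0) : F.totalDegree = d := by
  have hs : ∀ m : Fin 2 →₀ ℕ, (m.sum fun _ e => e) = m 0 + m 1 := by
    intro m
    rw [Finsupp.sum_fintype _ _ (fun _ => rfl), Fin.sum_univ_two]
  apply le_antisymm
  · unfold MvPolynomial.totalDegree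
    rw [Finset.sup_le_iff]
    intro m hm
    rw [hs]
    by_contra hlt
    exact (MvPolynomial.mem_support_iff.1 hm) (h2 m (by omega))
  · have h3 := MvPolynomial.le_totalDegree (MvPolynomial.mem_support_iff.2 h1)
    rw [hs] at h3
    simp only [Finsupp.coe_add, Pi.add_apply, Finsupp.single_apply] at h3
    simp at h3
    omega

/-- For every degree `d ≥ 4` and every height `t ≥ 1` there is an absolutely irreducible `F` of
degree `d` and genus `d - 2`, with all coefficients in `[-t, t]`, whose curve has the integer point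
`(t ^ 3, t ^ (3 d - 2) + t ^ 2)`. So every bound `B(F)` for the integer points on the curves of
genus at least two has `B(F) > t ^ (3 d - 2)` for such an `F`. -/
theorem result (d t : ℕ) (hd : 4 ≤ d) (ht : 1 ≤ t) :
    ∃ F : MvPolynomial (Fin 2) ℤ, HasGenus F (d - 2) ∧ F.totalDegree = d ∧
      (∀ m, |F.coeff m| ≤ (t : ℤ)) ∧
      MvPolynomial.eval ![(t : ℤ) ^ 3, (t : ℤ) ^ (3 * d - 2) + (t : ℤ) ^ 2] F = 0 := by
  obtain ⟨g, rfl⟩ : ∃ g, d = g + 2 := ⟨d - 2, by omega⟩
  have hgen := hasGenus g t (by omega) ht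
  have hco : ∀ m : Fin 2 →₀ ℕ, (quad (P₁ g t) (Q₁ g t)).coeff m =
      (if 0 = m 0 ∧ 2 = m 1 then 1 else 0) + (if g + 1 = m 0 ∧ 1 = m 1 then -(t : ℤ) else 0) +
      (if g + 2 = m 0 ∧ 0 = m 1 then -1 else 0) + (if 1 = m 0 ∧ 0 = m 1 then -(t : ℤ) else 0) := by
    intro m
    rw [quad₁, MvPolynomial.coeff_add, MvPolynomial.coeff_add, MvPolynomial.coeff_add,
      coeff_mon, coeff_mon, coeff_mon, coeff_mon]
  refine ⟨quad (P₁ g t) (Q₁ g t), hgen, ?_, ?_, ?_⟩
  · refine totalDegree_eq (i := g + 2) (j := 0) rfl ?_ ?_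
    · rw [hco]
      simp
    · intro m hm
      rw [hco]
      split_ifs <;> omega
  · intro m
    rw [hco, abs_le]
    split_ifs <;> constructor <;> omega
  · have h5 : 3 * (g + 2) - 2 = 3 * g + 4 := by omega
    rw [h5, quad₁]
    simp only [mon_eq, map_add, map_mul, map_pow, MvPolynomial.eval_C, MvPolynomial.eval_X,
      Matrix.cons_val_zero, Matrix.cons_val_one]
    ring

end Pool.Agent.Results.MP_821da1_nt.LowerBoundForB
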